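import Pool.Agent.V5helper33.EHS.Stm3
import Pool.Agent.V5helper32.EHS.BC

set_option autoImplicit false

/-!
# Project EHS, job BC2: Borel-Cantelli, the large range (adapted from helper32's BC)
-/

namespace V5helper4.EHS

open Finset MeasureTheory ProbabilityTheory Filter
open scoped ENNReal Topology
open Pool.Agent.W41 (V V_pos V_le_one)
open Pool.Agent.V5helper42.RS (TT TT_prime V_TT_ge)
open Pool.Agent.V5helper33.EHS
open Pool.Agent.V5helper32.EHS (ev_log1 TQ_prime TQ_ndvd V_TQ_ge union_le)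

lemma ev_GG (D : ℝ) (hD : 0 < D) (K : ℕ) : ∀ᶠ x : ℕ in atTop,
    3 ≤ GG D x ∧ 2 * Real.log x ^ K ≤ GG D x := by
  have ht : Tendsto (fun x : ℕ => Real.log (Real.log x)) atTop atTop :=
    Real.tendsto_log_atTop.comp (Real.tendsto_log_atTop.comp tendsto_natCast_atTop_atTop)
  filter_upwards [ht.eventually_ge_atTop 2, ht.eventually_ge_atTop ((K + 1) / D), ev_log1]
    with x h1 h2 h3
  obtain ⟨u, hu⟩ : ∃ u, u = Real.log (Real.log x) := ⟨_, rfl⟩
  have hL : 0 < Real.log x := by linarith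
  have hLu : Real.log x = Real.exp u := by rw [hu, Real.exp_log hL]
  have hG : GG D x = Real.exp (D * u ^ 2) := by rw [GG, hu]
  rw [← hu] at h1 h2
  rw [div_le_iff₀ hD] at h2
  have hu0 : 0 ≤ u := by linarith
  have h4 : (K + 1) * u ≤ D * u ^ 2 := by
    have := mul_le_mul_of_nonneg_right h2 hu0
    nlinarith
  have hK : (0 : ℝ) ≤ K := Nat.cast_nonneg K
  have hKu : 0 ≤ (K : ℝ) * u := mul_nonneg hK hu0
  rw [hG, hLu]
  constructor
  · have h5 := Real.add_one_le_exp (D * u ^ 2)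
    linarith
  · have h6 : (2 : ℝ) ≤ Real.exp u := by
      have := Real.add_one_le_exp u
      linarith
    calc 2 * Real.exp u ^ K ≤ Real.exp u * Real.exp u ^ K :=
          mul_le_mul_of_nonneg_right h6 (by positivity)
      _ = Real.exp ((K + 1) * u) := by
          rw [← Real.exp_nat_mul, ← Real.exp_add]
          congr 1
          ring
      _ ≤ Real.exp (D * u ^ 2) := Real.exp_le_exp.2 h4

lemma GG_two (D : ℝ) (x : ℕ) : GG (2 * D) x = GG D x * GG D x := by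
  rw [GG, GG, ← Real.exp_add]
  congr 1
  ring

lemma ev_hh2 (D : ℝ) (hD : 0 < D) (K : ℕ) : ∀ᶠ x : ℕ in atTop, ∀ q : ℕ, 1 ≤ q →
    (q : ℝ) * GG (2 * D) x ≤ x → GG D x * q ≤ (hh K x : ℝ) ∧ q ≤ x := by
  filter_upwards [ev_GG D hD K, ev_log1, eventually_ge_atTop 1] with x hx hL1 hx1
  intro q hq1 hq
  obtain ⟨hG3, hGL⟩ := hx
  have hx0 : (0 : ℝ) < x := by exact_mod_cast hx1
  have hq1' : (1 : ℝ) ≤ q := by exact_mod_cast hq1
  have hLK : 0 < Real.log x ^ K := pow_pos (by linarith) K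
  rw [GG_two] at hq
  obtain ⟨G, hG⟩ : ∃ G, G = GG D x := ⟨_, rfl⟩
  rw [← hG] at hG3 hGL hq ⊢
  have hy1 : 1 ≤ G * q := by nlinarith
  have hyG : (G * q) * G ≤ x := by
    calc (G * q) * G = q * (G * G) := by ring
      _ ≤ x := hq
  have h2 : 2 * (G * q) ≤ x / Real.log x ^ K := by
    rw [le_div_iff₀ hLK]
    have h5 := mul_le_mul_of_nonneg_left hGL (show 0 ≤ G * q by linarith)
    nlinarith
  have h3 : (x : ℝ) / Real.log x ^ K - 1 < hh K x := Nat.sub_one_lt_floor _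
  refine ⟨by linarith, ?_⟩
  have h6 : (q : ℝ) ≤ x := by nlinarith
  exact_mod_cast h6

open Classical in
/-- the bad event at `x` -/
noncomputable def Bad2 {Ω : Type} (a : ℕ → Ω → ℕ) (A : ℕ) (D : ℝ) (K x : ℕ) : Set Ω :=
  ⋃ m ∈ (range (x + 1)).filter (fun m => hh K x ≤ m),
  ⋃ q ∈ (range (x + 1)).filter (fun q : ℕ => 1 ≤ q ∧ (q : ℝ) * GG (2 * D) x ≤ x),
  ⋃ c ∈ range q, ⋃ t ∈ ({m, m + hh K x} : Finset ℕ),
    {ω | ¬ Close (fun p => a p ω) m (hh K x) q c (TQ t q) ((Real.log x) ^ A)⁻¹}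

theorem prob_Bad2 (A : ℕ) (D : ℝ) (hD : 0 < D) (K : ℕ)
    (hE : ∀ᶠ x : ℕ in atTop, ∀ (Ω : Type) [MeasurableSpace Ω] (μ : Measure Ω)
      [IsProbabilityMeasure μ] (a : ℕ → Ω → ℕ), Setup μ a → ∀ m h q c : ℕ, 1 ≤ q → c < q → q ≤ m →
      GG D x ≤ (h : ℝ) / q → ∀ T : Finset ℕ, (∀ p ∈ T, p.Prime) → (∀ p ∈ T, ¬ p ∣ q) →
      1 / (2 * Real.log x) ≤ V T →
      μ {ω | ¬ Close (fun p => a p ω) m h q c T ((Real.log x) ^ A)⁻¹} ≤
        ENNReal.ofReal (1 / (x : ℝ) ^ 5)) : ∀ᶠ x : ℕ in atTop,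
    ∀ (Ω : Type) [MeasurableSpace Ω] (μ : Measure Ω) [IsProbabilityMeasure μ] (a : ℕ → Ω → ℕ),
    Setup μ a → μ (Bad2 a A D K x) ≤ ENNReal.ofReal (16 / (x : ℝ) ^ 2) := by
  filter_upwards [hE, ev_hh2 D hD K, ev_log1, eventually_ge_atTop 2, ev_GG D hD K]
    with x h1 h2 h3 h4 h5
  intro Ω _ μ _ a hS
  have hx2 : (2 : ℝ) ≤ x := by exact_mod_cast h4
  have hx0 : (0 : ℝ) < x := by linarith
  have one : ∀ m ∈ (range (x + 1)).filter (fun m => hh K x ≤ m),
      ∀ q : ℕ, 1 ≤ q → (q : ℝ) * GG (2 * D) x ≤ x →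
      ∀ c ∈ range q, ∀ t ∈ ({m, m + hh K x} : Finset ℕ),
      μ {ω | ¬ Close (fun p => a p ω) m (hh K x) q c (TQ t q) ((Real.log x) ^ A)⁻¹} ≤
        ENNReal.ofReal (1 / (x : ℝ) ^ 5) := by
    intro m hm q hq hqx c hc t ht
    rw [mem_filter, mem_range] at hm
    rw [mem_range] at hc
    have hq1 : (1 : ℝ) ≤ q := by exact_mod_cast hq
    have h6 := (h2 q hq hqx).1
    have h7 : 3 * (q : ℝ) ≤ (hh K x : ℝ) := by
      have := mul_le_mul_of_nonneg_right h5.1 (show (0 : ℝ) ≤ q by linarith)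
      linarith
    have h8 : 3 * q ≤ hh K x := by exact_mod_cast h7
    refine h1 Ω μ a hS m (hh K x) q c hq hc (by omega) ?_ (TQ t q) (TQ_prime t q) (TQ_ndvd t q) ?_
    · rw [le_div_iff₀ (by linarith)]
      exact h6
    · have ht1 : 3 ≤ t ∧ t ≤ 2 * x := by
        rw [mem_insert, mem_singleton] at ht
        have hhx : hh K x ≤ m := hm.2
        omega
      have ht3 : (3 : ℝ) ≤ t := by exact_mod_cast ht1.1
      have ht2 : (t : ℝ) ≤ 2 * x := by exact_mod_cast ht1.2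
      have hl3 : (1 : ℝ) ≤ Real.log 3 :=
        (Real.le_log_iff_exp_le (by norm_num)).2 (by linarith [Real.exp_one_lt_d9])
      have hlt : (1 : ℝ) ≤ Real.log t := hl3.trans (Real.log_le_log (by norm_num) ht3)
      have hlt2 : Real.log t ≤ 2 * Real.log x := by
        have h9 : Real.log t ≤ Real.log (2 * x) := Real.log_le_log (by linarith) ht2
        rw [Real.log_mul (by norm_num) hx0.ne'] at h9
        have h10 : Real.log 2 ≤ Real.log x := Real.log_le_log (by norm_num) hx2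
        linarith
      calc 1 / (2 * Real.log x) ≤ 1 / Real.log t := one_div_le_one_div_of_le (by linarith) hlt2
        _ ≤ V (TT (Real.log t)) := V_TT_ge _ hlt
        _ ≤ V (TQ t q) := V_TQ_ge t q
  have hB : μ (Bad2 a A D K x) ≤ ((x + 1 : ℕ) : ℝ≥0∞) * (((x + 1 : ℕ) : ℝ≥0∞) *
      (((x + 1 : ℕ) : ℝ≥0∞) * (((2 : ℕ) : ℝ≥0∞) * ENNReal.ofReal (1 / (x : ℝ) ^ 5)))) := by
    unfold Bad2
    refine union_le μ _ _ _ _ ((card_filter_le _ _).trans (by rw [card_range])) fun m hm => ?_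
    refine union_le μ _ _ _ _ ((card_filter_le _ _).trans (by rw [card_range])) fun q hq => ?_
    rw [mem_filter, mem_range] at hq
    refine union_le μ _ _ _ _ (by rw [card_range]; omega) fun c hc => ?_
    exact union_le μ _ _ _ _ card_le_two fun t ht => one m hm q hq.2.1 hq.2.2 c hc t ht
  refine hB.trans ?_
  rw [← ENNReal.ofReal_natCast (x + 1), ← ENNReal.ofReal_natCast 2,
    ← ENNReal.ofReal_mul (by positivity), ← ENNReal.ofReal_mul (by positivity),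
    ← ENNReal.ofReal_mul (by positivity), ← ENNReal.ofReal_mul (by positivity)]
  apply ENNReal.ofReal_le_ofReal
  have h6 : ((x + 1 : ℕ) : ℝ) ≤ 2 * x := by push_cast; linarith
  have h7 : (0 : ℝ) ≤ ((x + 1 : ℕ) : ℝ) := by positivity
  have h8 : ((x + 1 : ℕ) : ℝ) ^ 3 ≤ (2 * x) ^ 3 := pow_le_pow_left₀ h7 h6 3
  have h9 : (0 : ℝ) ≤ 1 / (x : ℝ) ^ 5 := by positivity
  calc ((x + 1 : ℕ) : ℝ) * (((x + 1 : ℕ) : ℝ) * (((x + 1 : ℕ) : ℝ) * (((2 : ℕ) : ℝ) * (1 / (x : ℝ) ^ 5))))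
      = ((x + 1 : ℕ) : ℝ) ^ 3 * (2 * (1 / (x : ℝ) ^ 5)) := by push_cast; ring
    _ ≤ (2 * x) ^ 3 * (2 * (1 / (x : ℝ) ^ 5)) := mul_le_mul_of_nonneg_right h8 (by positivity)
    _ = 16 / (x : ℝ) ^ 2 := by field_simp; norm_num

theorem t_BC2 (hE : S_EVT2) : S_BC2 := by
  intro A K
  obtain ⟨D, hD, hE'⟩ := hE A
  refine ⟨2 * D, by linarith, ?_⟩
  intro Ω _ μ _ a hS
  obtain ⟨x0, hx0⟩ := eventually_atTop.1 (prob_Bad2 A D hD K hE')
  have hBC : ∀ᵐ ω ∂μ, ∀ᶠ x : ℕ in atTop, ω ∉ (if x0 ≤ x then Bad2 a A D K x else ∅) := by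
    apply ae_eventually_notMem
    have hs : Summable (fun m : ℕ => 16 / (m : ℝ) ^ 2) := by
      have h := (Real.summable_one_div_nat_pow.2 (by norm_num : 1 < 2)).mul_left 16
      simpa only [mul_one_div] using h
    refine ne_top_of_le_ne_top hs.tsum_ofReal_ne_top ?_
    apply ENNReal.tsum_le_tsum
    intro m
    split_ifs with h
    · exact hx0 m h Ω μ a hS
    · simp
  filter_upwards [hBC] with ω h1
  filter_upwards [h1, eventually_ge_atTop x0, eventually_ge_atTop 1, ev_hh2 D hD K]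
    with x g1 g2 g3 g4
  intro m q c t hq hqx hc hm hmx ht
  rw [if_pos g2] at g1
  by_contra hcon
  apply g1
  unfold Bad2
  simp only [Set.mem_iUnion]
  have hqx2 : q ≤ x := (g4 q hq hqx).2
  refine ⟨m, ?_, q, ?_, c, ?_, t, ?_, hcon⟩
  · rw [mem_filter, mem_range]
    exact ⟨by omega, hm⟩
  · rw [mem_filter, mem_range]
    exact ⟨by omega, hq, hqx⟩
  · rw [mem_range]
    exact hc
  · rw [mem_insert, mem_singleton]
    exact ht

end V5helper4.EHS
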