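import Pool.Agent.V5helper33.EHS.Stm

set_option autoImplicit false

namespace V5helper4.EHS

open Finset

theorem inv_tot_le (n : ℕ) (hn : 1 ≤ n) : 1 / (Nat.totient n : ℝ) ≤ (n.divisors.card : ℝ) / n := by
  have h1 : n ≤ n.divisors.card * Nat.totient n := by
    calc n = ∑ d ∈ n.divisors, Nat.totient d := (Nat.sum_totient n).symm
      _ ≤ ∑ _d ∈ n.divisors, Nat.totient n := by
          apply sum_le_sum
          intro d hd
          exact Nat.le_of_dvd (Nat.totient_pos.mpr hn)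
            (Nat.totient_dvd_of_dvd (Nat.dvd_of_mem_divisors hd))
      _ = _ := by rw [sum_const, smul_eq_mul]
  have h2 : (0:ℝ) < Nat.totient n := by exact_mod_cast Nat.totient_pos.mpr hn
  have h3 : (0:ℝ) < n := by exact_mod_cast hn
  rw [div_le_div_iff₀ h2 h3, one_mul]
  exact_mod_cast h1

theorem harm_le (N : ℕ) : ∑ c ∈ Icc 1 N, (1:ℝ) / c ≤ 1 + Real.log N := by
  have h := harmonic_le_one_add_log N
  rw [harmonic_eq_sum_Icc] at h
  push_cast at h
  refine le_trans (le_of_eq ?_) h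
  exact sum_congr rfl fun c _ => one_div _

theorem tau_le (N : ℕ) : ∑ n ∈ Icc 1 N, (n.divisors.card : ℝ) / n ≤ (1 + Real.log N) ^ 2 := by
  have h1 : ∀ n ∈ Icc 1 N, (n.divisors.card : ℝ) / n =
      ∑ d ∈ Icc 1 N, if d ∣ n then (1 : ℝ) / n else 0 := by
    intro n hn
    rw [mem_Icc] at hn
    rw [← sum_filter, sum_const, nsmul_eq_mul, mul_one_div]
    congr 3
    ext d
    rw [Nat.mem_divisors, mem_filter, mem_Icc]
    constructor
    · rintro ⟨h, -⟩
      exact ⟨⟨Nat.pos_of_dvd_of_pos h hn.1, (Nat.le_of_dvd hn.1 h).trans hn.2⟩, h⟩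
    · rintro ⟨-, h⟩
      exact ⟨h, by omega⟩
  rw [sum_congr rfl h1, sum_comm]
  have h2 : ∀ d ∈ Icc 1 N, ∑ n ∈ Icc 1 N, (if d ∣ n then (1 : ℝ) / n else 0) ≤
      (1 / (d : ℝ)) * ∑ c ∈ Icc 1 N, (1:ℝ) / c := by
    intro d hd
    rw [mem_Icc] at hd
    rw [← sum_filter, mul_sum]
    have h3 : ((Icc 1 N).filter fun n => d ∣ n) ⊆ (Icc 1 N).image fun c => d * c := by
      intro n hn
      obtain ⟨hn1, c, rfl⟩ := mem_filter.1 hn
      rw [mem_Icc] at hn1
      refine mem_image.2 ⟨c, mem_Icc.2 ⟨?_, ?_⟩, rfl⟩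
      · rcases Nat.eq_zero_or_pos c with h | h
        · subst h; simp at hn1
        · exact h
      · exact (Nat.le_mul_of_pos_left c hd.1).trans hn1.2
    refine (sum_le_sum_of_subset_of_nonneg h3 fun _ _ _ => by positivity).trans ?_
    rw [sum_image fun a _ b _ h => Nat.eq_of_mul_eq_mul_left hd.1 h]
    apply le_of_eq
    refine sum_congr rfl fun c _ => ?_
    push_cast
    rw [one_div_mul_one_div]
  refine (sum_le_sum h2).trans ?_
  rw [← sum_mul, sq]
  have h4 := harm_le N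
  have h5 : 0 ≤ ∑ c ∈ Icc 1 N, (1:ℝ) / c := sum_nonneg fun _ _ => by positivity
  exact mul_le_mul h4 h4 h5 (h5.trans h4)

theorem t_PHI : Pool.Agent.V5helper33.EHS.S_PHI := by
  refine ⟨4, by norm_num, ?_⟩
  intro x hx
  have h1 : ∑ q ∈ Icc 1 x, 1 / (Nat.totient q : ℝ) ≤ (1 + Real.log x) ^ 2 :=
    (sum_le_sum fun e he => inv_tot_le e (mem_Icc.1 he).1).trans (tau_le x)
  have h2 : 1 ≤ Real.log x := by
    rw [Real.le_log_iff_exp_le (by positivity)]
    have h3 : Real.exp 1 < 3 := by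
      have := Real.exp_one_lt_d9
      linarith
    have h4 : (3 : ℝ) ≤ x := by exact_mod_cast hx
    linarith
  refine h1.trans ?_
  have h5 : 0 ≤ 1 + Real.log x := by linarith
  calc (1 + Real.log x) ^ 2 ≤ (2 * Real.log x) ^ 2 := pow_le_pow_left₀ h5 (by linarith) 2
    _ = 4 * Real.log x ^ 2 := by ring

end V5helper4.EHS
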