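import Pool.Agent.V5helper33.EHS.Stm

set_option autoImplicit false

namespace V5helper4.EHS

open Finset
open Pool.Agent.V5helper33.EHS
open Pool.Agent.W41 (V V_pos V_le_one)
open Pool.Agent.V5helper42.RS (W model TT TT_prime)

theorem NB_add (a : ℕ → ℕ) (m h k q c : ℕ) :
    NB a m (h + k) q c = NB a m h q c + NB a (m + h) k q c := by
  classical
  unfold NB
  rw [← card_union_of_disjoint]
  · congr 1
    ext n
    simp only [mem_filter, mem_Ioc, mem_union]
    constructor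
    · rintro ⟨h1, h2⟩
      rcases Nat.lt_or_ge (m + h) n with h3 | h3
      · exact Or.inr ⟨⟨h3, by omega⟩, h2⟩
      · exact Or.inl ⟨⟨h1.1, h3⟩, h2⟩
    · rintro (⟨h1, h2⟩ | ⟨h1, h2⟩)
      · exact ⟨⟨h1.1, by omega⟩, h2⟩
      · exact ⟨⟨by omega, by omega⟩, h2⟩
  · rw [disjoint_left]
    intro n h1 h2
    have h3 := (mem_Ioc.1 (mem_filter.1 h1).1).2
    have h4 := (mem_Ioc.1 (mem_filter.1 h2).1).1
    omega

theorem NB_le (a : ℕ → ℕ) (m k q c : ℕ) (hq : 1 ≤ q) : NB a m k q c * q ≤ k + 2 * q := by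
  classical
  have h1 : NB a m k q c ≤ (Icc (m / q) ((m + k) / q)).card := by
    unfold NB
    apply card_le_card_of_injOn fun n => n / q
    · intro n hn
      have hn' := mem_filter.1 hn
      have h2 := mem_Ioc.1 hn'.1
      exact mem_coe.2 (mem_Icc.2 ⟨Nat.div_le_div_right h2.1.le, Nat.div_le_div_right h2.2⟩)
    · intro n hn n' hn' h
      have h2 := (mem_filter.1 hn).2.1
      have h3 := (mem_filter.1 hn').2.1
      have h4 := Nat.div_add_mod n q
      have h5 := Nat.div_add_mod n' q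
      simp only at h
      rw [← h4, ← h5, h, h2, h3]
  rw [Nat.card_Icc] at h1
  have h2 : m / q ≤ (m + k) / q := Nat.div_le_div_right (Nat.le_add_right _ _)
  have h3 : (m + k) / q * q ≤ m + k := Nat.div_mul_le_self _ _
  have h4 : m < (m / q + 1) * q := by
    have := Nat.lt_div_mul_add (a := m) (b := q) hq
    rw [add_mul, one_mul]
    exact this
  obtain ⟨d, hd⟩ := Nat.exists_eq_add_of_le h2
  rw [hd] at h1 h3
  have h5 : NB a m k q c ≤ d + 1 := by omega
  calc NB a m k q c * q ≤ (d + 1) * q := Nat.mul_le_mul_right _ h5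
    _ ≤ k + 2 * q := by
      rw [add_mul] at h3 h4
      rw [add_mul]
      omega

theorem NB_le_len (a : ℕ → ℕ) (m k q c : ℕ) : NB a m k q c ≤ k := by
  classical
  unfold NB
  refine (card_filter_le _ _).trans ?_
  rw [Nat.card_Ioc]
  omega

theorem D_le (a : ℕ → ℕ) (m k h q c : ℕ) (hq : 1 ≤ q) (hqh : q ≤ h) (hk : k ≤ h) :
    |(NB a m k q c : ℝ) - (NB a m k 1 0 : ℝ) / Nat.totient q| ≤ 3 * h / Nat.totient q := by
  have hφ : (0 : ℝ) < Nat.totient q := by exact_mod_cast Nat.totient_pos.mpr hq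
  have hφq : (Nat.totient q : ℝ) ≤ q := by exact_mod_cast Nat.totient_le q
  have h1 : (NB a m k q c : ℝ) ≤ 3 * h / Nat.totient q := by
    rw [le_div_iff₀ hφ]
    have h2 : (NB a m k q c : ℝ) * q ≤ k + 2 * q := by exact_mod_cast NB_le a m k q c hq
    have h3 : (NB a m k q c : ℝ) * Nat.totient q ≤ (NB a m k q c : ℝ) * q :=
      mul_le_mul_of_nonneg_left hφq (Nat.cast_nonneg _)
    have h4 : (q : ℝ) ≤ h := by exact_mod_cast hqh
    have h5 : (k : ℝ) ≤ h := by exact_mod_cast hk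
    linarith
  have h2 : (NB a m k 1 0 : ℝ) / Nat.totient q ≤ 3 * h / Nat.totient q := by
    apply div_le_div_of_nonneg_right _ hφ.le
    have h3 : (NB a m k 1 0 : ℝ) ≤ k := by exact_mod_cast NB_le_len a m k 1 0
    have h5 : (k : ℝ) ≤ h := by exact_mod_cast hk
    have h6 : (0 : ℝ) ≤ h := Nat.cast_nonneg _
    linarith
  have h3 : (0 : ℝ) ≤ (NB a m k q c : ℝ) := Nat.cast_nonneg _
  have h4 : 0 ≤ (NB a m k 1 0 : ℝ) / Nat.totient q := by positivity
  rw [abs_le]
  constructor <;> linarith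

theorem t_SUM : Pool.Agent.V5helper33.EHS.S_SUM := by
  intro a x h q c η hh hhx hq hqh hc hη hblk
  have hφ : (0 : ℝ) < Nat.totient q := by exact_mod_cast Nat.totient_pos.mpr hq
  have hhR : (0 : ℝ) < h := by exact_mod_cast hh
  -- induction over the blocks
  have key : ∀ J : ℕ, (J + 1) * h ≤ x →
      |(NB a 0 ((J + 1) * h) q c : ℝ) - (NB a 0 ((J + 1) * h) 1 0 : ℝ) / Nat.totient q| ≤
      3 * h / Nat.totient q + (h : ℝ) / Nat.totient q *
        (V (TT (Real.log ((1 * h : ℕ) : ℝ))) - V (TT (Real.log (((J + 1) * h : ℕ) : ℝ))) + J * η) := by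
    intro J
    induction J with
    | zero =>
      intro _
      have h1 := D_le a 0 h h q c hq hqh le_rfl
      simp only [zero_add, one_mul, sub_self, Nat.cast_zero, zero_mul, mul_zero, add_zero]
      exact h1
    | succ J ih =>
      intro hJ
      have h0 : (J + 1) * h ≤ x := le_trans (Nat.mul_le_mul_right _ (by omega)) hJ
      have h1 := ih h0
      have h2 := hblk (J + 1) (by omega) hJ
      have e1 : (J + 1 + 1) * h = (J + 1) * h + h := by ring
      rw [e1, NB_add, NB_add, Nat.zero_add]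
      push_cast at h1 h2 ⊢
      have e2 : ((NB a 0 ((J + 1) * h) q c : ℝ) + (NB a ((J + 1) * h) h q c : ℝ)) -
          ((NB a 0 ((J + 1) * h) 1 0 : ℝ) + (NB a ((J + 1) * h) h 1 0 : ℝ)) / Nat.totient q =
          ((NB a 0 ((J + 1) * h) q c : ℝ) - (NB a 0 ((J + 1) * h) 1 0 : ℝ) / Nat.totient q) +
          ((NB a ((J + 1) * h) h q c : ℝ) - (NB a ((J + 1) * h) h 1 0 : ℝ) / Nat.totient q) := by
        ring
      rw [e2]
      refine (abs_add_le _ _).trans ((add_le_add h1 h2).trans (le_of_eq ?_))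
      ring
  -- the number of blocks
  set J := x / h with hJdef
  have hJ1 : 1 ≤ J := by
    rw [hJdef]
    exact (Nat.one_le_div_iff hh).2 hhx
  have hJx : J * h ≤ x := Nat.div_mul_le_self _ _
  obtain ⟨I, hI⟩ : ∃ I, J = I + 1 := ⟨J - 1, by omega⟩
  rw [hI] at hJx
  have hrest : x - (I + 1) * h ≤ h := by
    have h1 := Nat.lt_div_mul_add (a := x) (b := h) hh
    rw [← hJdef, hI] at h1
    omega
  have h1 := key I hJx
  have h2 := D_le a ((I + 1) * h) (x - (I + 1) * h) h q c hq hqh hrest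
  have e1 : x = (I + 1) * h + (x - (I + 1) * h) := by omega
  have e3 : NB a 0 x q c = NB a 0 ((I + 1) * h) q c + NB a ((I + 1) * h) (x - (I + 1) * h) q c := by
    conv_lhs => rw [e1]
    rw [NB_add, Nat.zero_add]
  have e4 : NB a 0 x 1 0 = NB a 0 ((I + 1) * h) 1 0 + NB a ((I + 1) * h) (x - (I + 1) * h) 1 0 := by
    conv_lhs => rw [e1]
    rw [NB_add, Nat.zero_add]
  have hV1 : V (TT (Real.log ((1 * h : ℕ) : ℝ))) ≤ 1 := V_le_one (TT_prime _)
  have hV2 : 0 < V (TT (Real.log (((I + 1) * h : ℕ) : ℝ))) := V_pos (TT_prime _)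
  have hIx : (I : ℝ) * h ≤ x := by
    have : I * h ≤ x := le_trans (Nat.mul_le_mul_right _ (by omega)) hJx
    exact_mod_cast this
  have h3 : (h : ℝ) / Nat.totient q *
        (V (TT (Real.log ((1 * h : ℕ) : ℝ))) - V (TT (Real.log (((I + 1) * h : ℕ) : ℝ))) + I * η) ≤
        (h + x * η) / Nat.totient q := by
    rw [div_mul_eq_mul_div]
    apply div_le_div_of_nonneg_right _ hφ.le
    have h4 : (I : ℝ) * h * η ≤ x * η := mul_le_mul_of_nonneg_right hIx hη
    have h5 : (h : ℝ) * (V (TT (Real.log ((1 * h : ℕ) : ℝ))) -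
        V (TT (Real.log (((I + 1) * h : ℕ) : ℝ)))) ≤ h * 1 :=
      mul_le_mul_of_nonneg_left (by linarith) hhR.le
    have h6 : (h : ℝ) * (V (TT (Real.log ((1 * h : ℕ) : ℝ))) -
        V (TT (Real.log (((I + 1) * h : ℕ) : ℝ))) + I * η) =
        (h : ℝ) * (V (TT (Real.log ((1 * h : ℕ) : ℝ))) -
        V (TT (Real.log (((I + 1) * h : ℕ) : ℝ)))) + (I : ℝ) * h * η := by ring
    rw [h6]
    linarith
  have e5 : (NB a 0 x q c : ℝ) - (NB a 0 x 1 0 : ℝ) / Nat.totient q =
      ((NB a 0 ((I + 1) * h) q c : ℝ) - (NB a 0 ((I + 1) * h) 1 0 : ℝ) / Nat.totient q) +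
      ((NB a ((I + 1) * h) (x - (I + 1) * h) q c : ℝ) -
        (NB a ((I + 1) * h) (x - (I + 1) * h) 1 0 : ℝ) / Nat.totient q) := by
    rw [e3, e4]
    push_cast
    ring
  rw [e5]
  refine (abs_add_le _ _).trans ((add_le_add (h1.trans (add_le_add le_rfl h3)) h2).trans
    (le_of_eq ?_))
  ring

end V5helper4.EHS
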